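import Pool.Agent.W873.RS.Stm

/-! GA1 of project RS: two-dimensional marginals of the standard Gaussian measure. -/

set_option autoImplicit false

open MeasureTheory ProbabilityTheory Filter Topology
open scoped ENNReal

namespace Pool.Agent.W176.RS.GA1

open Pool.Agent.W873.RS

lemma g1 (L : StrongDual ℝ ℝ) :
    charFunDual (gaussianReal 0 1) L = Complex.exp (((-(L 1) ^ 2 / 2 : ℝ)) : ℂ) := by
  have h : charFunDual (gaussianReal 0 1) L = charFun (gaussianReal 0 1) (L 1) := by
    rw [charFunDual_apply, charFun_apply_real]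
    congr 1
    ext x
    have hx : L x = x * L 1 := by
      have := L.map_smul x (1 : ℝ)
      simpa using this
    rw [hx]
    push_cast
    ring_nf
  rw [h, charFun_gaussianReal]
  congr 1
  push_cast
  ring

/-- the continuous linear map `z ↦ (⟨z, u⟩, ⟨z, v⟩)` -/
noncomputable def T {κ : Type} [Fintype κ] (u v : κ → ℝ) : (κ → ℝ) →L[ℝ] ℝ × ℝ :=
  (∑ j, u j • ContinuousLinearMap.proj (R := ℝ) (φ := fun _ : κ => ℝ) j).prod
    (∑ j, v j • ContinuousLinearMap.proj (R := ℝ) (φ := fun _ : κ => ℝ) j)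

lemma T_apply {κ : Type} [Fintype κ] (u v : κ → ℝ) (z : κ → ℝ) :
    T u v z = (ip z u, ip z v) := by
  simp [T, ip, mul_comm]

/-- the continuous linear map `p ↦ (c p₁ + s p₂, c p₁ - s p₂)` -/
noncomputable def S (c s : ℝ) : ℝ × ℝ →L[ℝ] ℝ × ℝ :=
  (c • ContinuousLinearMap.fst ℝ ℝ ℝ + s • ContinuousLinearMap.snd ℝ ℝ ℝ).prod
    (c • ContinuousLinearMap.fst ℝ ℝ ℝ - s • ContinuousLinearMap.snd ℝ ℝ ℝ)

lemma S_apply (c s : ℝ) (p : ℝ × ℝ) :
    S c s p = (c * p.1 + s * p.2, c * p.1 - s * p.2) := by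
  simp [S]

lemma Lpair (L : StrongDual ℝ (ℝ × ℝ)) (x y : ℝ) :
    L (x, y) = x * L (1, 0) + y * L (0, 1) := by
  have : ((x, y) : ℝ × ℝ) = x • ((1, 0) : ℝ × ℝ) + y • ((0, 1) : ℝ × ℝ) := by
    ext <;> simp
  rw [this, map_add, map_smul, map_smul]
  simp

theorem main : GA1 := by
  classical
  intro κ _ u v c s hu hv hcs huv
  have e1 : (fun z : κ → ℝ => (ip z u, ip z v)) = T u v := by
    funext z; rw [T_apply]
  have e2 : (fun p : ℝ × ℝ => (c * p.1 + s * p.2, c * p.1 - s * p.2)) = S c s := by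
    funext p; rw [S_apply]
  rw [e1, e2]
  have : IsFiniteMeasure ((gm κ).map (T u v)) := by
    infer_instance
  refine Measure.ext_of_charFunDual (funext fun L => ?_)
  rw [charFunDual_map, charFunDual_map, gm, charFunDual_pi, charFunDual_prod]
  simp only [g1]
  rw [← Complex.exp_sum, ← Complex.exp_add, ← Complex.ofReal_sum, ← Complex.ofReal_add]
  congr 2
  set a := L (1, 0) with ha
  set b := L (0, 1) with hb
  have t1 : ∀ j : κ, ((L.comp (T u v)).comp (ContinuousLinearMap.single ℝ (fun _ : κ => ℝ) j)) 1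
      = u j * a + v j * b := by
    intro j
    have : T u v (Pi.single j (1 : ℝ)) = (u j, v j) := by
      rw [T_apply]
      simp [ip, Pi.single_apply]
    simp only [ContinuousLinearMap.comp_apply, ContinuousLinearMap.single_apply]
    rw [this, Lpair]
  have t2 : ((L.comp (S c s)).comp (ContinuousLinearMap.inl ℝ ℝ ℝ)) 1 = c * a + c * b := by
    simp only [ContinuousLinearMap.comp_apply, ContinuousLinearMap.inl_apply, S_apply]
    rw [Lpair, ← ha, ← hb]
    simp
  have t3 : ((L.comp (S c s)).comp (ContinuousLinearMap.inr ℝ ℝ ℝ)) 1 = s * a - s * b := by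
    simp only [ContinuousLinearMap.comp_apply, ContinuousLinearMap.inr_apply, S_apply]
    rw [Lpair]
    simp
    ring
  simp only [t1, t2, t3]
  have : ∑ j, (-(u j * a + v j * b) ^ 2 / 2)
      = -(a ^ 2 * ∑ j, u j ^ 2 + b ^ 2 * ∑ j, v j ^ 2 + 2 * a * b * ∑ j, u j * v j) / 2 := by
    rw [Finset.mul_sum, Finset.mul_sum, Finset.mul_sum, ← Finset.sum_add_distrib,
      ← Finset.sum_add_distrib, ← Finset.sum_neg_distrib, Finset.sum_div]
    refine Finset.sum_congr rfl fun j _ => ?_
    ring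
  rw [this, hu, hv, ← huv]
  linear_combination ((a ^ 2 + b ^ 2) / 2) * hcs
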